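import Mathlib
import Pool.Prelude.Def_F_c31e40fa
import Pool.Agent.J4H16.Uni

set_option autoImplicit false

namespace Pool.Agent.Results.MP_af9036_an.CriticalPointGaps

/-- The map `z ↦ z ^ n + c`. -/
def f (n : ℕ) (c : ℂ) : ℂ → ℂ := fun z => z ^ n + c

/-- The parameters `c` for which `z ^ n + c` has an attracting cycle. -/
def hyp (n : ℕ) : Set ℂ := {c | ∃ m z, N62a1eb23.IsAttractingCycle (f n c) m z}

/-- The postcritical set: the closure of the forward orbit of the critical value. -/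
def P (n : ℕ) (c : ℂ) : Set ℂ := closure {z | ∃ k, 1 ≤ k ∧ z = (f n c)^[k] 0}

/-- The closure of the forward orbit of `y`. -/
def O (n : ℕ) (c y : ℂ) : Set ℂ := closure (Set.range fun k => (f n c)^[k] y)

/-- The round annulus with centre `x` and radii `η`, `K * η` does not meet the postcritical set. -/
def Gap (n : ℕ) (c : ℂ) (K : ℝ) (x : ℂ) (η : ℝ) : Prop :=
  ∀ u ∈ P n c, ¬ (η < ‖u - x‖ ∧ ‖u - x‖ < K * η)

/-- Every point of the postcritical set has in the closure of its orbit the critical point, or a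
point at which the postcritical set has gaps of a fixed ratio at arbitrarily small scales. -/
def Rec (n : ℕ) (c : ℂ) : Prop :=
  ∀ y ∈ P n c, (0 : ℂ) ∈ O n c y ∨ ∃ w ∈ O n c y, ∃ l : ℝ, 1 < l ∧ ∀ η₀ : ℝ, 0 < η₀ →
    ∃ η : ℝ, 0 < η ∧ η < η₀ ∧ Gap n c l w η

/-- Density of hyperbolicity at the parameters whose critical orbit avoids, at arbitrarily small
scales `ρ`, the thin annulus `ρ < |z| < (1 + C log n / n) ρ` around the critical point, where `C`
does not depend on the degree `n`. -/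
theorem result : ∃ C : ℕ, ∀ n : ℕ, 2 ≤ n → ∀ c ∈ N62a1eb23.multibrotSet n, Rec n c →
      (∀ ρ₀ : ℝ, 0 < ρ₀ → ∃ ρ : ℝ, 0 < ρ ∧ ρ < ρ₀ ∧ ∀ k : ℕ, 1 ≤ k →
        ¬ (ρ < ‖(f n c)^[k] 0‖ ∧ ‖(f n c)^[k] 0‖ < (1 + C * Real.log n / n) * ρ)) →
      c ∈ closure (hyp n) := by
  obtain ⟨C, -, h⟩ := Pool.Agent.J4H16.uni_thm
  exact ⟨C, fun n hn c hc H2 H => h n hn c hc H2 (Or.inl H)⟩

end Pool.Agent.Results.MP_af9036_an.CriticalPointGaps
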