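import Mathlib
import Pool.Prelude.Def_F_c31e40fa
import Pool.Agent.J4H16.Nice2

set_option autoImplicit false

open Metric

namespace Pool.Agent.Results.MP_af9036_an.NiceCouples

/-- The map `z ↦ z ^ n + c`. -/
def f (n : ℕ) (c : ℂ) : ℂ → ℂ := fun z => z ^ n + c

/-- The parameters `c` for which `z ^ n + c` has an attracting cycle. -/
def hyp (n : ℕ) : Set ℂ := {c | ∃ m z, N62a1eb23.IsAttractingCycle (f n c) m z}

/-- The postcritical set: the closure of the forward orbit of the critical value. -/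
def P (n : ℕ) (c : ℂ) : Set ℂ := closure {z | ∃ k, 1 ≤ k ∧ z = (f n c)^[k] 0}

/-- The closure of the forward orbit of `y`. -/
def O (n : ℕ) (c y : ℂ) : Set ℂ := closure (Set.range fun k => (f n c)^[k] y)

/-- The round annulus with centre `x` and radii `η`, `K * η` does not meet the postcritical set. -/
def Gap (n : ℕ) (c : ℂ) (K : ℝ) (x : ℂ) (η : ℝ) : Prop :=
  ∀ u ∈ P n c, ¬ (η < ‖u - x‖ ∧ ‖u - x‖ < K * η)

/-- Every point of the postcritical set has in the closure of its orbit the critical point, or a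
point at which the postcritical set has gaps of a fixed ratio at arbitrarily small scales. -/
def Rec (n : ℕ) (c : ℂ) : Prop :=
  ∀ y ∈ P n c, (0 : ℂ) ∈ O n c y ∨ ∃ w ∈ O n c y, ∃ l : ℝ, 1 < l ∧ ∀ η₀ : ℝ, 0 < η₀ →
    ∃ η : ℝ, 0 < η ∧ η < η₀ ∧ Gap n c l w η

/-- `(V, D)` is a nice couple: the forward orbit of the boundary of `D` never meets `V`. -/
def Nice (n : ℕ) (c : ℂ) (V D : Set ℂ) : Prop :=
  ∀ z ∈ frontier D, ∀ k, 1 ≤ k → (f n c)^[k] z ∉ V

/-- `(V, D)` is an inner pair: if an iterate maps a neighbourhood `W` of the critical value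
conformally onto `V`, then the part of the preimage of `W` that is sent to `D` is in `D`. -/
def Inner (n : ℕ) (c : ℂ) (V D : Set ℂ) : Prop :=
  ∀ (m : ℕ) (W : Set ℂ), IsOpen W → c ∈ W → Set.InjOn (fun z => (f n c)^[m] z) W →
    (fun z => (f n c)^[m] z) '' W = V →
      ∀ z : ℂ, z ^ n + c ∈ W → (f n c)^[m + 1] z ∈ D → z ∈ D

/-- Density of hyperbolicity at the parameters with nice couples `(V, D)` (in degree at least three
also with inner pairs) of bounded geometry around the critical point at arbitrarily small scales;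
`φ` is the Riemann map of `V`. -/
theorem result (n : ℕ) (hn : 2 ≤ n) (c : ℂ) (hc : c ∈ N62a1eb23.multibrotSet n) (hrec : Rec n c)
    (θ : ℝ) (hθ : θ < 1)
    (H : ∀ ε : ℝ, 0 < ε → ∃ (φ : ℂ → ℂ) (D : Set ℂ),
      (DifferentiableOn ℂ φ (ball 0 1) ∧ Set.InjOn φ (ball 0 1)) ∧ φ 0 = 0 ∧ ‖deriv φ 0‖ < ε ∧
      IsOpen D ∧ (0 : ℂ) ∈ D ∧ D ⊆ φ '' ball 0 θ ∧
      (Nice n c (φ '' ball 0 1) D ∨ (3 ≤ n ∧ Inner n c (φ '' ball 0 1) D))) :
    c ∈ closure (hyp n) :=
  Pool.Agent.J4H16.pair_thm hn hc hrec hθ H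

end Pool.Agent.Results.MP_af9036_an.NiceCouples
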