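import Mathlib
import Pool.Prelude.Def_F_c31e40fa
import Pool.Agent.J4H16.Uni

set_option autoImplicit false

namespace Pool.Agent.Results.MP_af9036_an.PostcriticalGaps

/-- The map `z ↦ z ^ n + c`. -/
def f (n : ℕ) (c : ℂ) : ℂ → ℂ := fun z => z ^ n + c

/-- The parameters `c` for which `z ^ n + c` has an attracting cycle. -/
def hyp (n : ℕ) : Set ℂ := {c | ∃ m z, N62a1eb23.IsAttractingCycle (f n c) m z}

/-- The postcritical set: the closure of the forward orbit of the critical value. -/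
def P (n : ℕ) (c : ℂ) : Set ℂ := closure {z | ∃ k, 1 ≤ k ∧ z = (f n c)^[k] 0}

/-- The closure of the forward orbit of `y`. -/
def O (n : ℕ) (c y : ℂ) : Set ℂ := closure (Set.range fun k => (f n c)^[k] y)

/-- The round annulus with centre `x` and radii `η`, `K * η` does not meet the postcritical set. -/
def Gap (n : ℕ) (c : ℂ) (K : ℝ) (x : ℂ) (η : ℝ) : Prop :=
  ∀ u ∈ P n c, ¬ (η < ‖u - x‖ ∧ ‖u - x‖ < K * η)

/-- Every point of the postcritical set has in the closure of its orbit the critical point, or a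
point at which the postcritical set has gaps of a fixed ratio at arbitrarily small scales. -/
def Rec (n : ℕ) (c : ℂ) : Prop :=
  ∀ y ∈ P n c, (0 : ℂ) ∈ O n c y ∨ ∃ w ∈ O n c y, ∃ l : ℝ, 1 < l ∧ ∀ η₀ : ℝ, 0 < η₀ →
    ∃ η : ℝ, 0 < η ∧ η < η₀ ∧ Gap n c l w η

/-- Density of hyperbolicity at the parameters whose postcritical set has gaps of ratio `n ^ C` at
arbitrarily small scales, or Hausdorff dimension less than `1 / (C log n)`, where `C` does not
depend on the degree `n`. -/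
theorem result : ∃ C : ℕ, 1 ≤ C ∧ ∀ n : ℕ, 2 ≤ n →
    ∀ c ∈ N62a1eb23.multibrotSet n, Rec n c →
      ((∀ η₀ : ℝ, 0 < η₀ → ∃ η : ℝ, 0 < η ∧ η < η₀ ∧ ∃ x ∈ P n c, Gap n c ((n : ℝ) ^ C) x η) ∨
        dimH (P n c) < ENNReal.ofReal (1 / (C * Real.log n))) →
      c ∈ closure (hyp n) := by
  obtain ⟨C, hC, h⟩ := Pool.Agent.J4H16.uni_thm
  exact ⟨C, hC, fun n hn c hc H2 H => h n hn c hc H2 (Or.inr H)⟩

end Pool.Agent.Results.MP_af9036_an.PostcriticalGaps
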