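import Mathlib
import Pool.Prelude.Def_F_c31e40fa
import Pool.Agent.J4H16.UD.Tool

set_option autoImplicit false

namespace Pool.Agent.Results.MP_af9036_an.UniformlyDisconnected

/-- The map `z ↦ z ^ n + c`. -/
def f (n : ℕ) (c : ℂ) : ℂ → ℂ := fun z => z ^ n + c

/-- The parameters `c` for which `z ^ n + c` has an attracting cycle. -/
def hyp (n : ℕ) : Set ℂ := {c | ∃ m z, N62a1eb23.IsAttractingCycle (f n c) m z}

/-- The postcritical set: the closure of the forward orbit of the critical value. -/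
def P (n : ℕ) (c : ℂ) : Set ℂ := closure {z | ∃ k, 1 ≤ k ∧ z = (f n c)^[k] 0}

/-- The set `S` is uniformly disconnected (at small scales): for some `θ > 0` and `d > 0`, two
distinct points of `S` at a distance at most `d` are not joined by a chain of points of `S` with
steps at most `θ` times their distance. -/
def UD (S : Set ℂ) : Prop := ∃ θ > 0, ∃ d > 0, ∀ (k : ℕ) (p : ℕ → ℂ),
  (∀ i ≤ k, p i ∈ S) → dist (p 0) (p k) ≤ d →
    (∀ i < k, dist (p i) (p (i + 1)) ≤ θ * dist (p 0) (p k)) → p 0 = p k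

/-- Density of hyperbolicity at all parameters whose postcritical set is uniformly disconnected,
in every degree `n ≥ 2`. -/
theorem result (n : ℕ) (hn : 2 ≤ n) (c : ℂ) (hc : c ∈ N62a1eb23.multibrotSet n)
    (H : UD (P n c)) : c ∈ closure (hyp n) := by
  obtain ⟨θ, hθ, d, hd, H⟩ := H
  obtain ⟨C0, c0, T⟩ := Pool.Agent.J4H16.UD.exists_TU
  have hcl : IsClosed (Pool.Agent.J4H16.PC n c) := isClosed_closure
  obtain ⟨ε, R1, h1, h2, h3, h4⟩ := Pool.Agent.J4H42.UD.t_UDC (Pool.Agent.J4H16.PC n c) θ d hcl hθ hd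
    (by
      intro k p h1 h2 h3
      refine (H k p h1 ?_ ?_).symm
      · rw [dist_comm, dist_eq_norm]
        exact h2
      · intro i hi
        rw [dist_comm (p i), dist_comm (p 0), dist_eq_norm, dist_eq_norm]
        exact h3 i hi)
  obtain ⟨ε', R1', h5, h6, h7, h8⟩ := Pool.Agent.J4H8.UD.t_UDP (Pool.Agent.J4H16.PC n c) ε R1 h1 h2
    h3 h4
  exact Pool.Agent.J4H16.UD.ud_main T hn hc h5 h6 h7 h8

end Pool.Agent.Results.MP_af9036_an.UniformlyDisconnected
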